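import Mathlib

namespace Pool.Agent.Results.MP_b0d7fb_nt.Three

/-- Distance from `x` to the nearest integer. -/
noncomputable def nd (x : ℝ) : ℝ := |x - round x|

/-- The mixed lonely runner property of the threshold vector `d`. -/
def MLRC {k : ℕ} (d : Fin k → ℝ) : Prop :=
  ∀ s : Fin k → ℕ, (∀ i, 0 < s i) → Function.Injective s → ∃ t : ℝ, ∀ i, d i ≤ nd (s i * t)

/-- The mixed lonely runner parameter space. -/
def MLPS (k : ℕ) : Set (Fin k → ℝ) := {d | (∀ i, 0 < d i ∧ d i ≤ 1 / 2) ∧ MLRC d}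

/-- The upper boundary: points of `MLPS k` not dominated by another point of `MLPS k`. -/
def upperBoundary (k : ℕ) : Set (Fin k → ℝ) :=
  {d | d ∈ MLPS k ∧ ∀ e ∈ MLPS k, (∀ i, d i ≤ e i) → e = d}

/-- The diagonal point. -/
noncomputable def D (k : ℕ) : Fin k → ℝ := fun _ => 1 / (k + 1)

def Arc (lo hi x : ℝ) : Prop := ∃ m : ℤ, lo ≤ x - m ∧ x - m ≤ hi

lemma arc_iff (d x : ℝ) : d ≤ nd x ↔ Arc d (1 - d) x := by
  unfold nd
  rw [abs_sub_round_eq_min]
  constructor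
  · intro h
    refine ⟨⌊x⌋, ?_, ?_⟩
    · exact h.trans (min_le_left _ _)
    · have := h.trans (min_le_right _ _)
      unfold Int.fract at this
      linarith
  · rintro ⟨m, h1, h2⟩
    rw [← abs_sub_round_eq_min]
    rcases le_or_gt (round x) m with h | h
    · have : ((round x : ℤ) : ℝ) ≤ m := by exact_mod_cast h
      exact le_abs.mpr (Or.inl (by linarith))
    · have : (m : ℝ) + 1 ≤ ((round x : ℤ) : ℝ) := by exact_mod_cast h
      exact le_abs.mpr (Or.inr (by linarith))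

lemma arc_neg {lo hi x : ℝ} (z : ℤ) (h : Arc lo hi x) : Arc (z - hi) (z - lo) (-x) := by
  obtain ⟨m, h1, h2⟩ := h
  exact ⟨-m - z, by push_cast; linarith, by push_cast; linarith⟩

lemma arc_interval (lo hi L H : ℝ) (h1 : lo ≤ hi) (h2 : L ≤ H) (h3 : 1 - (hi - lo) ≤ H - L) :
    ∃ y, L ≤ y ∧ y ≤ H ∧ Arc lo hi y := by
  have a1 := Int.floor_le (L - lo)
  have a2 := Int.lt_floor_add_one (L - lo)
  by_cases h : L - ⌊L - lo⌋ ≤ hi
  · exact ⟨L, le_rfl, h2, ⌊L - lo⌋, by linarith, h⟩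
  · exact ⟨⌊L - lo⌋ + 1 + lo, by linarith, by linarith, ⌊L - lo⌋ + 1, by push_cast; linarith,
      by push_cast; linarith⟩

/-- scaling an interval of times -/
lemma pair_interval (p q α β lo hi : ℝ) (hp : 0 < p) (hq : 0 < q) (h0 : α ≤ β) (h1 : lo ≤ hi)
    (h3 : (1 - (hi - lo)) * p ≤ (β - α) * q) : ∃ t, Arc α β (p * t) ∧ Arc lo hi (q * t) := by
  obtain ⟨y, y1, y2, y3⟩ := arc_interval lo hi (α * (q / p)) (β * (q / p)) h1
    (mul_le_mul_of_nonneg_right h0 (by positivity))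
    (by rw [← sub_mul, ← mul_div_assoc, le_div_iff₀ hp]; exact h3)
  refine ⟨y / q, ⟨0, ?_, ?_⟩, by rwa [mul_div_cancel₀ _ hq.ne']⟩
  · rw [Int.cast_zero, sub_zero, ← mul_div_assoc, le_div_iff₀ hq]
    rw [← mul_div_assoc, div_le_iff₀ hp] at y1
    linarith
  · rw [Int.cast_zero, sub_zero, ← mul_div_assoc, div_le_iff₀ hq]
    rw [← mul_div_assoc, le_div_iff₀ hp] at y2
    linarith

lemma L1 (b u e α : ℝ) (hb : 0 < b) (he : 0 < e) (hα : 0 < α) (hα2 : α ≤ 1 / 2)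
    (h : (1 - 2 * e) * α ≤ (1 - 2 * α) * e) : ∃ t, Arc α (1 - α) (b * t) ∧ Arc (-e) e (u * t) := by
  wlog hu : 0 ≤ u generalizing u
  · obtain ⟨t, h1, h2⟩ := this (-u) (by linarith)
    refine ⟨t, h1, ?_⟩
    have := arc_neg 0 h2
    simpa using this
  by_cases hc : α * u ≤ e * b
  · refine ⟨α / b, ⟨0, ?_, ?_⟩, ⟨0, ?_, ?_⟩⟩
    · rw [mul_div_cancel₀ _ hb.ne']; simp
    · rw [mul_div_cancel₀ _ hb.ne']; simp; linarith
    · have : 0 ≤ u * (α / b) := by positivity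
      simp; linarith
    · rw [Int.cast_zero, sub_zero, ← mul_div_assoc, div_le_iff₀ hb]; linarith
  · have hu' : 0 < u := by
      by_contra hn
      have : u = 0 := by linarith
      rw [this] at hc
      have : 0 < e * b := by positivity
      linarith
    refine pair_interval b u α (1 - α) (-e) e hb hu' (by linarith) (by linarith) ?_
    have h1 : α * ((1 - (e - -e)) * b) ≤ α * ((1 - α - α) * u) := by nlinarith
    exact le_of_mul_le_mul_left h1 hα

lemma L2 (p q : ℝ) (hp : 0 < p) (hq : 0 < q) :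
    ∃ t, Arc (7 / 20) (13 / 20) (p * t) ∧ Arc (1 / 5) (4 / 5) (q * t) := by
  by_cases h1 : 4 * p ≤ 3 * q
  · exact pair_interval p q _ _ _ _ hp hq (by norm_num) (by norm_num) (by linarith)
  by_cases h2 : 7 * q ≤ 6 * p
  · obtain ⟨t, a, b⟩ := pair_interval q p (1 / 5) (4 / 5) (7 / 20) (13 / 20) hq hp (by norm_num)
      (by norm_num) (by linarith)
    exact ⟨t, b, a⟩
  refine ⟨1 / 2 / p, ⟨0, ?_, ?_⟩, ⟨0, ?_, ?_⟩⟩
  · rw [mul_div_cancel₀ _ hp.ne']; norm_num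
  · rw [mul_div_cancel₀ _ hp.ne']; norm_num
  · rw [Int.cast_zero, sub_zero, ← mul_div_assoc, le_div_iff₀ hp]; linarith
  · rw [Int.cast_zero, sub_zero, ← mul_div_assoc, div_le_iff₀ hp]; linarith

lemma L3 (p q : ℝ) (hp : 0 < p) (hq : 0 < q) :
    ∃ t, Arc (1 / 4) (3 / 4) (p * t) ∧ Arc (1 / 4) (3 / 4) (q * t) := by
  rcases le_total p q with h | h
  · exact pair_interval p q _ _ _ _ hp hq (by norm_num) (by norm_num) (by linarith)
  · obtain ⟨t, a, b⟩ := pair_interval q p (1 / 4) (3 / 4) (1 / 4) (3 / 4) hq hp (by norm_num)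
      (by norm_num) (by linarith)
    exact ⟨t, b, a⟩

lemma solve (a q n : ℤ) (h : IsCoprime a q) : ∃ j m : ℤ, a * j = n + q * m := by
  obtain ⟨x, y, hxy⟩ := h
  exact ⟨x * n, -(y * n), by linear_combination n * hxy⟩

/-- shifting the time by a multiple of `1 / q` puts runner `a` in a window of length `1 / q` -/
lemma window (a q : ℤ) (hq : 0 < q) (h : IsCoprime a q) (t lo : ℝ) :
    ∃ j m : ℤ, lo ≤ a * (t + j / q) - m ∧ a * (t + j / q) - m ≤ lo + 1 / q := by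
  obtain ⟨j, m, hj⟩ := solve a q ⌈q * (lo - a * t)⌉ h
  have hq' : (0 : ℝ) < q := by exact_mod_cast hq
  have hj' : (a : ℝ) * j = ⌈q * (lo - a * t)⌉ + q * m := by exact_mod_cast hj
  have a1 := Int.le_ceil (q * (lo - a * t))
  have a2 := Int.ceil_lt_add_one (q * (lo - a * t))
  have e : a * (t + j / q) - m = a * t + ⌈q * (lo - a * t)⌉ / q := by
    rw [mul_add, ← mul_div_assoc, hj']
    field_simp
    ring
  refine ⟨j, m, ?_, ?_⟩
  · rw [e, ← sub_le_iff_le_add', le_div_iff₀ hq']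
    linarith
  · rw [e, ← le_sub_iff_add_le', div_le_iff₀ hq']
    have : (lo + 1 / q - a * t) * q = q * (lo - a * t) + 1 := by
      field_simp
      ring
    linarith

lemma arc_shift {lo hi t : ℝ} (b q j : ℤ) (hq : q ≠ 0) (h : Arc lo hi (((q * b : ℤ) : ℝ) * t)) :
    Arc lo hi (((q * b : ℤ) : ℝ) * (t + j / q)) := by
  obtain ⟨m, h1, h2⟩ := h
  have hq' : (q : ℝ) ≠ 0 := by exact_mod_cast hq
  have e : ((q * b : ℤ) : ℝ) * (t + j / q) = ((q * b : ℤ) : ℝ) * t + b * j := by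
    push_cast
    field_simp
  refine ⟨m + b * j, ?_, ?_⟩ <;> rw [e] <;> push_cast at * <;> linarith

def T (x y z : ℝ) (a b c : ℤ) : Prop :=
  ∃ t : ℝ, Arc x (1 - x) (a * t) ∧ Arc y (1 - y) (b * t) ∧ Arc z (1 - z) (c * t)

lemma T_neg {x y z : ℝ} {a b c : ℤ} (h : T x y z a b (-c)) : T x y z a b c := by
  obtain ⟨t, h1, h2, h3⟩ := h
  refine ⟨t, h1, h2, ?_⟩
  have := arc_neg 1 h3
  simpa using this

lemma T_swap {x y z : ℝ} {a b c : ℤ} (h : T x z y a c b) : T x y z a b c := by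
  obtain ⟨t, h1, h2, h3⟩ := h
  exact ⟨t, h1, h3, h2⟩

lemma T_rot {x y z : ℝ} {a b c : ℤ} (h : T y z x b c a) : T x y z a b c := by
  obtain ⟨t, h1, h2, h3⟩ := h
  exact ⟨t, h3, h1, h2⟩

lemma T_scale {x y z : ℝ} {a b c : ℤ} (q : ℤ) (hq : q ≠ 0) (h : T x y z a b c) :
    T x y z (q * a) (q * b) (q * c) := by
  obtain ⟨t, h1, h2, h3⟩ := h
  have hq' : (q : ℝ) ≠ 0 := by exact_mod_cast hq
  have e : ∀ a : ℤ, ((q * a : ℤ) : ℝ) * (t / q) = a * t := by
    intro a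
    push_cast
    field_simp
  exact ⟨t / q, by rwa [e], by rwa [e], by rwa [e]⟩

/-- two speeds divisible by `q`, the third prime to `q` -/
lemma T_two {x y z : ℝ} (q a b c : ℤ) (hq : 0 < q) (hc : IsCoprime c q) (hz : z + 1 / q ≤ 1 - z)
    (h : ∃ t : ℝ, Arc x (1 - x) (((q * a : ℤ) : ℝ) * t) ∧ Arc y (1 - y) (((q * b : ℤ) : ℝ) * t)) :
    T x y z (q * a) (q * b) c := by
  obtain ⟨t, h1, h2⟩ := h
  obtain ⟨j, m, j1, j2⟩ := window c q hq hc t z
  exact ⟨t + j / q, arc_shift a q j hq.ne' h1, arc_shift b q j hq.ne' h2, m, j1, j2.trans hz⟩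

lemma cop2 (a : ℤ) (h : a % 2 = 1) : IsCoprime a 2 :=
  ⟨1, -(a / 2), by omega⟩

lemma cop4 (a : ℤ) (h : a % 2 = 1) : IsCoprime a 4 := by
  have := (cop2 a h).pow_right (n := 2)
  simpa using this

lemma cop5 (a : ℤ) (h : a % 5 ≠ 0) : IsCoprime a 5 := by
  have hp : Prime (5 : ℤ) := Int.prime_iff_natAbs_prime.mpr (by norm_num)
  exact ((hp.coprime_iff_not_dvd).mpr (by omega)).symm

lemma Q_four (a b u : ℤ) (ha : a % 2 = 1) (hb : 0 < b) :
    T (1 / 4) (1 / 4) (1 / 4) a (4 * b) (a + 4 * u) := by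
  obtain ⟨t, h1, m0, h2, h3⟩ := L1 ((4 * b : ℤ) : ℝ) ((4 * u : ℤ) : ℝ) (1 / 4) (1 / 4)
    (by positivity) (by norm_num) (by norm_num) (by norm_num) (by norm_num)
  obtain ⟨j, m, j1, j2⟩ := window a 4 (by norm_num) (cop4 a ha) t
    (3 / 8 - (((4 * u : ℤ) : ℝ) * t - m0) / 2)
  refine ⟨t + j / (4 : ℤ), ⟨m, by push_cast at *; linarith, by push_cast at *; linarith⟩,
    arc_shift b 4 j (by norm_num) h1, m + m0 + u * j, ?_, ?_⟩ <;> push_cast at * <;> nlinarith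

lemma Q_oeo (a b c : ℤ) (ha : a % 2 = 1) (hb : 0 < b) (hc : c % 2 = 1) :
    T (1 / 4) (1 / 4) (1 / 4) a (2 * b) c := by
  rcases Int.emod_two_eq_zero_or_one b with h | h
  · rw [show 2 * b = 4 * (b / 2) by omega]
    by_cases h4 : (c - a) % 4 = 0
    · rw [show c = a + 4 * ((c - a) / 4) by omega]
      exact Q_four a _ _ ha (by omega)
    · apply T_neg
      rw [show -c = a + 4 * ((-c - a) / 4) by omega]
      exact Q_four a _ _ ha (by omega)
  · have key : ∀ s : ℤ, s % 4 ≠ 0 → Arc (1 / 4) (1 - 1 / 4) (s * (1 / 4 : ℝ)) := by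
      intro s hs
      have e : (s : ℝ) = 4 * ((s / 4 : ℤ) : ℝ) + ((s % 4 : ℤ) : ℝ) := by
        exact_mod_cast (Int.mul_ediv_add_emod s 4).symm
      have h1 : (1 : ℝ) ≤ ((s % 4 : ℤ) : ℝ) := by exact_mod_cast (by omega : (1 : ℤ) ≤ s % 4)
      have h2 : ((s % 4 : ℤ) : ℝ) ≤ 3 := by exact_mod_cast (by omega : s % 4 ≤ (3 : ℤ))
      exact ⟨s / 4, by linarith, by linarith⟩
    exact ⟨1 / 4, key a (by omega), key _ (by omega), key c (by omega)⟩

lemma Q_eeo (a b c : ℤ) (ha : 0 < a) (hb : 0 < b) (hc : c % 2 = 1) :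
    T (1 / 4) (1 / 4) (1 / 4) (2 * a) (2 * b) c := by
  refine T_two 2 a b c (by norm_num) (cop2 c hc) (by norm_num) ?_
  have := L3 ((2 * a : ℤ) : ℝ) ((2 * b : ℤ) : ℝ) (by positivity) (by positivity)
  norm_num at this ⊢
  exact this

lemma quarter (n : ℕ) : ∀ a b c : ℤ, 0 < a → 0 < b → 0 < c → a ≤ n →
    T (1 / 4) (1 / 4) (1 / 4) a b c := by
  induction n with
  | zero => intro a b c ha _ _ h; omega
  | succ n ih =>
    intro a b c ha hb hc h
    rcases Int.emod_two_eq_zero_or_one a with h1 | h1 <;>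
    rcases Int.emod_two_eq_zero_or_one b with h2 | h2 <;>
    rcases Int.emod_two_eq_zero_or_one c with h3 | h3
    · rw [show a = 2 * (a / 2) by omega, show b = 2 * (b / 2) by omega,
        show c = 2 * (c / 2) by omega]
      exact T_scale 2 (by norm_num) (ih _ _ _ (by omega) (by omega) (by omega) (by omega))
    · rw [show a = 2 * (a / 2) by omega, show b = 2 * (b / 2) by omega]
      exact Q_eeo _ _ _ (by omega) (by omega) h3
    · apply T_swap
      rw [show a = 2 * (a / 2) by omega, show c = 2 * (c / 2) by omega]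
      exact Q_eeo _ _ _ (by omega) (by omega) h2
    · apply T_rot
      apply T_swap
      rw [show a = 2 * (a / 2) by omega]
      exact Q_oeo _ _ _ h2 (by omega) h3
    · apply T_rot
      rw [show b = 2 * (b / 2) by omega, show c = 2 * (c / 2) by omega]
      exact Q_eeo _ _ _ (by omega) (by omega) h1
    · rw [show b = 2 * (b / 2) by omega]
      exact Q_oeo _ _ _ h1 (by omega) h3
    · apply T_swap
      rw [show c = 2 * (c / 2) by omega]
      exact Q_oeo _ _ _ h1 (by omega) h2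
    · have key : ∀ s : ℤ, s % 2 = 1 → Arc (1 / 4) (1 - 1 / 4) (s * (1 / 2 : ℝ)) := by
        intro s hs
        have e : (s : ℝ) = 2 * ((s / 2 : ℤ) : ℝ) + 1 := by
          exact_mod_cast (by omega : s = 2 * (s / 2) + 1)
        exact ⟨s / 2, by linarith, by linarith⟩
      exact ⟨1 / 2, key a h1, key b h2, key c h3⟩

lemma F_one (a b u : ℤ) (ha : a % 5 ≠ 0) (hb : 0 < b) :
    T (7 / 20) (1 / 5) (1 / 5) a (5 * b) (a + 5 * u) := by
  obtain ⟨t, h1, m0, h2, h3⟩ := L1 ((5 * b : ℤ) : ℝ) ((5 * u : ℤ) : ℝ) (1 / 4) (1 / 5)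
    (by positivity) (by norm_num) (by norm_num) (by norm_num) (by norm_num)
  obtain ⟨j, m, j1, j2⟩ := window a 5 (by norm_num) (cop5 a ha) t
    (2 / 5 - (((5 * u : ℤ) : ℝ) * t - m0) / 5)
  refine ⟨t + j / (5 : ℤ), ⟨m, by push_cast at *; linarith, by push_cast at *; linarith⟩,
    arc_shift b 5 j (by norm_num) h1, m + m0 + u * j, ?_, ?_⟩ <;> push_cast at * <;> nlinarith

lemma F_two (a b u : ℤ) (ha : a % 5 ≠ 0) (hb : 0 < b) :
    T (7 / 20) (1 / 5) (1 / 5) a (5 * b) (2 * a + 5 * u) := by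
  by_cases hu : u = 0
  · subst hu
    obtain ⟨t, h1, m0, h2, h3⟩ := L1 ((5 * b : ℤ) : ℝ) ((5 * a : ℤ) : ℝ) (1 / 4) (1 / 5)
      (by positivity) (by norm_num) (by norm_num) (by norm_num) (by norm_num)
    rcases le_total (((5 * a : ℤ) : ℝ) * t - m0) 0 with h | h
    · obtain ⟨j, m, hj⟩ := solve a 5 (2 - m0) (cop5 a ha)
      have hj' : (a : ℝ) * j = 2 - m0 + 5 * m := by exact_mod_cast hj
      refine ⟨t + j / (5 : ℤ), ⟨m, ?_, ?_⟩, arc_shift b 5 j (by norm_num) h1, 2 * m, ?_, ?_⟩ <;>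
        push_cast at * <;> nlinarith
    · obtain ⟨j, m, hj⟩ := solve a 5 (3 - m0) (cop5 a ha)
      have hj' : (a : ℝ) * j = 3 - m0 + 5 * m := by exact_mod_cast hj
      refine ⟨t + j / (5 : ℤ), ⟨m, ?_, ?_⟩, arc_shift b 5 j (by norm_num) h1, 2 * m + 1, ?_, ?_⟩ <;>
        push_cast at * <;> nlinarith
  · have key : ∃ t, Arc (7 / 20) (13 / 20) (((5 * u : ℤ) : ℝ) * t) ∧
        Arc (1 / 5) (1 - 1 / 5) (((5 * b : ℤ) : ℝ) * t) := by
      rcases lt_or_gt_of_ne hu with h | h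
      · obtain ⟨t, h1, h2⟩ := L2 ((5 * (-u) : ℤ) : ℝ) ((5 * b : ℤ) : ℝ)
          (by exact_mod_cast (by omega : (0 : ℤ) < 5 * (-u))) (by positivity)
        refine ⟨t, ?_, by norm_num at h2 ⊢; exact h2⟩
        have := arc_neg 1 h1
        norm_num at this ⊢
        exact this
      · obtain ⟨t, h1, h2⟩ := L2 ((5 * u : ℤ) : ℝ) ((5 * b : ℤ) : ℝ) (by positivity) (by positivity)
        exact ⟨t, h1, by norm_num at h2 ⊢; exact h2⟩
    obtain ⟨t, ⟨m0, h2, h3⟩, h1⟩ := key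
    obtain ⟨j, m, j1, j2⟩ := window a 5 (by norm_num) (cop5 a ha) t
      (2 / 5 - (((5 * u : ℤ) : ℝ) * t - m0 - 1 / 2) / 3)
    refine ⟨t + j / (5 : ℤ), ⟨m, by push_cast at *; linarith, by push_cast at *; linarith⟩,
      arc_shift b 5 j (by norm_num) h1, 2 * m + m0 + u * j + 1, ?_, ?_⟩ <;>
      push_cast at * <;> nlinarith

lemma four_cases (a c : ℤ) (ha : a % 5 ≠ 0) (hc : c % 5 ≠ 0) :
    (c - a) % 5 = 0 ∨ (-c - a) % 5 = 0 ∨ (c - 2 * a) % 5 = 0 ∨ (-c - 2 * a) % 5 = 0 := by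
  have h1 : a % 5 = 1 ∨ a % 5 = 2 ∨ a % 5 = 3 ∨ a % 5 = 4 := by omega
  have h2 : c % 5 = 1 ∨ c % 5 = 2 ∨ c % 5 = 3 ∨ c % 5 = 4 := by omega
  rcases h1 with h | h | h | h <;> rcases h2 with h' | h' | h' | h' <;> omega

lemma F_b (a b c : ℤ) (ha : a % 5 ≠ 0) (hb : 0 < b) (hc : c % 5 ≠ 0) :
    T (7 / 20) (1 / 5) (1 / 5) a (5 * b) c := by
  have := four_cases a c ha hc
  rcases this with h | h | h | h
  · rw [show c = a + 5 * ((c - a) / 5) by omega]
    exact F_one a _ _ ha hb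
  · apply T_neg
    rw [show -c = a + 5 * ((-c - a) / 5) by omega]
    exact F_one a _ _ ha hb
  · rw [show c = 2 * a + 5 * ((c - 2 * a) / 5) by omega]
    exact F_two a _ _ ha hb
  · apply T_neg
    rw [show -c = 2 * a + 5 * ((-c - 2 * a) / 5) by omega]
    exact F_two a _ _ ha hb

lemma F_a' (a b u κ : ℤ) (hκ : κ = 1 ∨ κ = 2) (ha : 0 < a) (hb : b % 5 ≠ 0) :
    T (7 / 20) (1 / 5) (1 / 5) (5 * a) b (κ * b + 5 * u) := by
  have ha' : ((5 * a : ℤ) : ℝ) ≠ 0 := by positivity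
  set t : ℝ := 1 / 2 / ((5 * a : ℤ) : ℝ)
  have h1 : Arc (7 / 20) (1 - 7 / 20) (((5 * a : ℤ) : ℝ) * t) :=
    ⟨0, by rw [mul_div_cancel₀ _ ha']; norm_num, by rw [mul_div_cancel₀ _ ha']; norm_num⟩
  obtain ⟨j, m, j1, j2⟩ := window b 5 (by norm_num) (cop5 b hb) t (1 / 5)
  have key : ∀ n : ℤ, 0 ≤ n → n ≤ 2 →
      Arc (1 / 5) (1 - 1 / 5) (((κ * b + 5 * u : ℤ) : ℝ) * (t + j / (5 : ℤ)) + κ * n / 5) →
      T (7 / 20) (1 / 5) (1 / 5) (5 * a) b (κ * b + 5 * u) := by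
    rintro n n0 n2 ⟨m1, q1, q2⟩
    obtain ⟨j', m', hj⟩ := solve b 5 n (cop5 b hb)
    have hj' : (b : ℝ) * j' = n + 5 * m' := by exact_mod_cast hj
    have n0' : (0 : ℝ) ≤ n := by exact_mod_cast n0
    have n2' : (n : ℝ) ≤ 2 := by exact_mod_cast n2
    have e : (κ : ℝ) * (b * j') = κ * (n + 5 * m') := by rw [hj']
    refine ⟨t + (j + j' : ℤ) / (5 : ℤ), arc_shift a 5 _ (by norm_num) h1, ⟨m + m', ?_, ?_⟩,
      m1 + κ * m' + u * j', ?_, ?_⟩ <;> push_cast at * <;> nlinarith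
  set y := ((κ * b + 5 * u : ℤ) : ℝ) * (t + j / (5 : ℤ))
  have a1 := Int.floor_le y
  have a2 := Int.lt_floor_add_one y
  by_cases c1 : y - ⌊y⌋ < 1 / 5
  · rcases hκ with rfl | rfl
    · exact key 1 (by norm_num) (by norm_num)
        ⟨⌊y⌋, by push_cast; linarith, by push_cast; linarith⟩
    · exact key 1 (by norm_num) (by norm_num)
        ⟨⌊y⌋, by push_cast; linarith, by push_cast; linarith⟩
  by_cases c2 : y - ⌊y⌋ ≤ 4 / 5
  · exact key 0 (by norm_num) (by norm_num) ⟨⌊y⌋, by push_cast; linarith, by push_cast; linarith⟩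
  · rcases hκ with rfl | rfl
    · exact key 2 (by norm_num) (by norm_num)
        ⟨⌊y⌋ + 1, by push_cast; linarith, by push_cast; linarith⟩
    · exact key 1 (by norm_num) (by norm_num)
        ⟨⌊y⌋ + 1, by push_cast; linarith, by push_cast; linarith⟩

lemma F_a (a b c : ℤ) (ha : 0 < a) (hb : b % 5 ≠ 0) (hc : c % 5 ≠ 0) :
    T (7 / 20) (1 / 5) (1 / 5) (5 * a) b c := by
  have := four_cases b c hb hc
  rcases this with h | h | h | h
  · rw [show c = 1 * b + 5 * ((c - b) / 5) by omega]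
    exact F_a' a _ _ 1 (by simp) ha hb
  · apply T_neg
    rw [show -c = 1 * b + 5 * ((-c - b) / 5) by omega]
    exact F_a' a _ _ 1 (by simp) ha hb
  · rw [show c = 2 * b + 5 * ((c - 2 * b) / 5) by omega]
    exact F_a' a _ _ 2 (by simp) ha hb
  · apply T_neg
    rw [show -c = 2 * b + 5 * ((-c - 2 * b) / 5) by omega]
    exact F_a' a _ _ 2 (by simp) ha hb

lemma F_ab (a b c : ℤ) (ha : 0 < a) (hb : 0 < b) (hc : c % 5 ≠ 0) :
    T (7 / 20) (1 / 5) (1 / 5) (5 * a) (5 * b) c := by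
  refine T_two 5 a b c (by norm_num) (cop5 c hc) (by norm_num) ?_
  have := L2 ((5 * a : ℤ) : ℝ) ((5 * b : ℤ) : ℝ) (by positivity) (by positivity)
  norm_num at this ⊢
  exact this

lemma F_bc (a b c : ℤ) (ha : a % 5 ≠ 0) (hb : 0 < b) (hc : 0 < c) :
    T (7 / 20) (1 / 5) (1 / 5) a (5 * b) (5 * c) := by
  apply T_rot
  refine T_two 5 b c a (by norm_num) (cop5 a ha) (by norm_num) ?_
  obtain ⟨t, ⟨m, h1, h2⟩, h3⟩ :=
    L2 ((5 * b : ℤ) : ℝ) ((5 * c : ℤ) : ℝ) (by positivity) (by positivity)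
  exact ⟨t, ⟨m, by linarith, by linarith⟩, by norm_num at h3 ⊢; exact h3⟩

lemma F_none (a b c : ℤ) (ha : a % 5 ≠ 0) (hb : b % 5 ≠ 0) (hc : c % 5 ≠ 0) :
    T (7 / 20) (1 / 5) (1 / 5) a b c := by
  obtain ⟨j, m, hj⟩ := solve a 5 2 (cop5 a ha)
  have hj' : (a : ℝ) * j = 2 + 5 * m := by exact_mod_cast hj
  have hp : Prime (5 : ℤ) := Int.prime_iff_natAbs_prime.mpr (by norm_num)
  have hj5 : ¬ (5 : ℤ) ∣ j := by
    intro h
    have := h.mul_left a
    omega
  have key : ∀ s : ℤ, s % 5 ≠ 0 → Arc (1 / 5) (1 - 1 / 5) (s * (j / 5 : ℝ)) := by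
    intro s hs
    have h0 : ¬ (5 : ℤ) ∣ s * j := by
      intro h
      rcases hp.dvd_or_dvd h with h | h
      · omega
      · exact hj5 h
    have e : (s : ℝ) * j = 5 * ((s * j / 5 : ℤ) : ℝ) + ((s * j % 5 : ℤ) : ℝ) := by
      exact_mod_cast (Int.mul_ediv_add_emod (s * j) 5).symm
    have h1 : (1 : ℝ) ≤ ((s * j % 5 : ℤ) : ℝ) := by
      exact_mod_cast (by omega : (1 : ℤ) ≤ s * j % 5)
    have h2 : ((s * j % 5 : ℤ) : ℝ) ≤ 4 := by exact_mod_cast (by omega : s * j % 5 ≤ (4 : ℤ))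
    exact ⟨s * j / 5, by linarith, by linarith⟩
  exact ⟨j / 5, ⟨m, by linarith, by linarith⟩, key b hb, key c hc⟩

lemma fifth (n : ℕ) : ∀ a b c : ℤ, 0 < a → 0 < b → 0 < c → a ≤ n →
    T (7 / 20) (1 / 5) (1 / 5) a b c := by
  induction n with
  | zero => intro a b c ha _ _ h; omega
  | succ n ih =>
    intro a b c ha hb hc h
    by_cases h1 : a % 5 = 0 <;> by_cases h2 : b % 5 = 0 <;> by_cases h3 : c % 5 = 0
    · rw [show a = 5 * (a / 5) by omega, show b = 5 * (b / 5) by omega,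
        show c = 5 * (c / 5) by omega]
      exact T_scale 5 (by norm_num) (ih _ _ _ (by omega) (by omega) (by omega) (by omega))
    · rw [show a = 5 * (a / 5) by omega, show b = 5 * (b / 5) by omega]
      exact F_ab _ _ _ (by omega) (by omega) h3
    · apply T_swap
      rw [show a = 5 * (a / 5) by omega, show c = 5 * (c / 5) by omega]
      exact F_ab _ _ _ (by omega) (by omega) h2
    · rw [show a = 5 * (a / 5) by omega]
      exact F_a _ _ _ (by omega) h2 h3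
    · rw [show b = 5 * (b / 5) by omega, show c = 5 * (c / 5) by omega]
      exact F_bc _ _ _ h1 (by omega) (by omega)
    · rw [show b = 5 * (b / 5) by omega]
      exact F_b _ _ _ h1 (by omega) h3
    · apply T_swap
      rw [show c = 5 * (c / 5) by omega]
      exact F_b _ _ _ h1 (by omega) h2
    · exact F_none _ _ _ h1 h2 h3

open MeasureTheory in
lemma union_bound (s : Fin 3 → ℕ) (hs : ∀ i, 0 < s i) (d : Fin 3 → ℝ) (hd : ∀ i, 0 ≤ d i)
    (h : 2 * d 0 + 2 * d 1 + 2 * d 2 < 1) : ∃ t : ℝ, ∀ i, d i ≤ nd (s i * t) := by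
  have vol : ∀ i, volume ((fun g : UnitAddCircle => (s i : ℤ) • g) ⁻¹'
      Metric.closedBall 0 (d i)) ≤ ENNReal.ofReal (2 * d i) := by
    intro i
    have hi : (s i : ℤ) ≠ 0 := by have := hs i; omega
    rw [(Measure.measurePreserving_zsmul volume hi).measure_preimage
      Metric.isClosed_closedBall.measurableSet.nullMeasurableSet, AddCircle.volume_closedBall]
    exact ENNReal.ofReal_le_ofReal (min_le_right _ _)
  by_contra hn
  push Not at hn
  have hsub : (Set.univ : Set UnitAddCircle) ⊆ ⋃ i, (fun g : UnitAddCircle => (s i : ℤ) • g) ⁻¹'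
      Metric.closedBall 0 (d i) := by
    intro g _
    obtain ⟨t, rfl⟩ := QuotientAddGroup.mk_surjective g
    obtain ⟨i, hi⟩ := hn t
    refine Set.mem_iUnion.mpr ⟨i, ?_⟩
    rw [Set.mem_preimage, mem_closedBall_zero_iff, ← AddCircle.coe_zsmul, UnitAddCircle.norm_eq,
      zsmul_eq_mul]
    exact hi.le
  have h1 := (measure_mono (μ := volume) hsub).trans (measure_iUnion_fintype_le _ _)
  rw [UnitAddCircle.measure_univ, Fin.sum_univ_three] at h1
  have h2 := h1.trans (add_le_add (add_le_add (vol 0) (vol 1)) (vol 2))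
  have d0 := hd 0
  have d1 := hd 1
  have d2 := hd 2
  rw [← ENNReal.ofReal_add (by linarith) (by linarith),
    ← ENNReal.ofReal_add (by linarith) (by linarith), ← ENNReal.ofReal_one,
    ENNReal.ofReal_le_ofReal_iff (by linarith)] at h2
  linarith

lemma mlrc_of_T (x y z : ℝ) (h : ∀ a b c : ℤ, 0 < a → 0 < b → 0 < c → T x y z a b c) :
    MLRC ![x, y, z] := by
  intro s hs _
  obtain ⟨t, h1, h2, h3⟩ := h (s 0) (s 1) (s 2) (by exact_mod_cast hs 0) (by exact_mod_cast hs 1)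
    (by exact_mod_cast hs 2)
  refine ⟨t, fun i => ?_⟩
  fin_cases i
  · exact (arc_iff _ _).mpr h1
  · exact (arc_iff _ _).mpr h2
  · exact (arc_iff _ _).mpr h3

lemma nd_cont : Continuous nd := by
  have : nd = fun x : ℝ => ‖(x : UnitAddCircle)‖ := by
    funext x
    rw [UnitAddCircle.norm_eq]
    rfl
  rw [this]
  exact continuous_norm.comp (AddCircle.continuous_mk' 1)

lemma closed_mlrc {k : ℕ} : IsClosed {d : Fin k → ℝ | MLRC d} := by
  have e : {d : Fin k → ℝ | MLRC d} = ⋂ s : Fin k → ℕ, ⋂ _ : (∀ i, 0 < s i),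
      ⋂ _ : Function.Injective s, Prod.snd ''
        {p : Set.Icc (0 : ℝ) 1 × (Fin k → ℝ) | ∀ i, p.2 i ≤ nd (s i * p.1)} := by
    ext d
    simp only [Set.mem_iInter]
    refine forall_congr' fun s => forall_congr' fun _ => forall_congr' fun _ => ⟨?_, ?_⟩
    · rintro ⟨t, ht⟩
      refine ⟨(⟨Int.fract t, Int.fract_nonneg t, (Int.fract_lt_one t).le⟩, d), fun i => ?_, rfl⟩
      obtain ⟨m, h1, h2⟩ := (arc_iff _ _).mp (ht i)
      refine (arc_iff _ _).mpr ⟨m - s i * ⌊t⌋, ?_, ?_⟩ <;>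
        simp only [Int.fract] <;> push_cast <;> linarith
    · rintro ⟨p, hp, rfl⟩
      exact ⟨p.1, hp⟩
  rw [e]
  refine isClosed_iInter fun s => isClosed_iInter fun _ => isClosed_iInter fun _ => ?_
  refine isClosedMap_snd_of_compactSpace _ ?_
  rw [Set.setOf_forall]
  refine isClosed_iInter fun i => isClosed_le (by fun_prop) (nd_cont.comp (by fun_prop))

lemma exists_max {k : ℕ} (w : Fin k → ℝ) (hw : w ∈ MLPS k) :
    ∃ v ∈ upperBoundary k, ∀ i, w i ≤ v i := by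
  have hc : IsCompact (Set.Icc w (fun _ => (1 / 2 : ℝ)) ∩ {d | MLRC d}) :=
    isCompact_Icc.inter_right closed_mlrc
  obtain ⟨v, ⟨⟨v1, v2⟩, v3⟩, hv⟩ := hc.exists_isMaxOn (f := fun d => ∑ i, d i)
    ⟨w, ⟨le_rfl, fun i => (hw.1 i).2⟩, hw.2⟩ (by fun_prop)
  refine ⟨v, ⟨⟨fun i => ⟨(hw.1 i).1.trans_le (v1 i), v2 i⟩, v3⟩, fun e he hve => ?_⟩, v1⟩
  have h1 : ∑ i, e i ≤ ∑ i, v i :=
    hv (show e ∈ _ from ⟨⟨fun i => (v1 i).trans (hve i), fun i => (he.1 i).2⟩, he.2⟩)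
  have h2 := (Finset.sum_eq_sum_iff_of_le (s := Finset.univ) (fun i _ => hve i)).mp
    (le_antisymm (Finset.sum_le_sum fun i _ => hve i) h1)
  funext i
  exact (h2 i (Finset.mem_univ i)).symm

lemma perm_mem {k : ℕ} (σ : Equiv.Perm (Fin k)) {d : Fin k → ℝ} (h : d ∈ MLPS k) :
    d ∘ σ ∈ MLPS k := by
  refine ⟨fun i => h.1 (σ i), fun s hs hinj => ?_⟩
  obtain ⟨t, ht⟩ := h.2 (s ∘ σ.symm) (fun i => hs _) (hinj.comp σ.symm.injective)
  exact ⟨t, fun i => by simpa using ht (σ i)⟩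

lemma perm_bd {k : ℕ} (σ : Equiv.Perm (Fin k)) {d : Fin k → ℝ} (h : d ∈ upperBoundary k) :
    d ∘ σ ∈ upperBoundary k := by
  refine ⟨perm_mem σ h.1, fun e he hle => ?_⟩
  have := h.2 (e ∘ σ.symm) (perm_mem σ.symm he) (fun i => by simpa using hle (σ.symm i))
  rw [← this]
  funext i
  simp

lemma avg_mem (v : Fin 3 → ℝ) (hv : v ∈ upperBoundary 3) (h0 : 1 / 4 < v 0) :
    (fun _ => (v 0 + v 1 + v 2) / 3) ∈ convexHull ℝ (upperBoundary 3 \ {D 3}) := by
  have key : ∀ σ : Equiv.Perm (Fin 3), v ∘ σ ∈ convexHull ℝ (upperBoundary 3 \ {D 3}) := by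
    intro σ
    refine subset_convexHull ℝ _ ⟨perm_bd σ hv, fun h => ?_⟩
    have := congrFun (Set.mem_singleton_iff.mp h) (σ.symm 0)
    simp only [Function.comp_apply, Equiv.apply_symm_apply, D] at this
    rw [this] at h0
    norm_num at h0
  have := (convex_convexHull ℝ (upperBoundary 3 \ {D 3})).sum_mem (t := Finset.univ)
    (w := fun _ : Fin 3 => (1 / 3 : ℝ)) (z := fun j => v ∘ Equiv.addRight j)
    (fun _ _ => by norm_num) (by simp) (fun j _ => key _)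
  have e : (fun _ => (v 0 + v 1 + v 2) / 3) =
      ∑ j : Fin 3, (1 / 3 : ℝ) • (v ∘ Equiv.addRight j) := by
    funext i
    fin_cases i <;> simp [Fin.sum_univ_three] <;> ring
  rw [e]
  exact this

lemma pair_bound (x y t : ℝ) (hy : 0 < y) (h1 : x ≤ nd (((1 : ℕ) : ℝ) * t))
    (h2 : y ≤ nd (((2 : ℕ) : ℝ) * t)) : 2 * x + y ≤ 1 := by
  obtain ⟨m, a1, a2⟩ := (arc_iff _ _).mp h1
  obtain ⟨n, b1, b2⟩ := (arc_iff _ _).mp h2
  push_cast at *
  rcases le_or_gt n (2 * m) with h | h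
  · have : (n : ℝ) ≤ 2 * m := by exact_mod_cast h
    linarith
  · have : (2 * m + 1 : ℝ) ≤ n := by exact_mod_cast h
    linarith

theorem result : ∃ k : ℕ, 1 ≤ k ∧ D k ∈ MLPS k ∧
    D k ∈ convexHull ℝ (upperBoundary k \ {D k}) := by
  refine ⟨3, by norm_num, ⟨fun i => by norm_num [D], ?_⟩, ?_⟩
  · have : D 3 = ![1 / 4, 1 / 4, 1 / 4] := by
      funext i
      fin_cases i <;> norm_num [D]
    rw [this]
    exact mlrc_of_T _ _ _ fun a b c ha hb hc => quarter a.toNat a b c ha hb hc (by omega)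
  obtain ⟨v, hv, hwv⟩ := exists_max ![7 / 20, 1 / 5, 1 / 5]
    ⟨fun i => by fin_cases i <;> norm_num,
      mlrc_of_T _ _ _ fun a b c ha hb hc => fifth a.toNat a b c ha hb hc (by omega)⟩
  obtain ⟨u, hu, hwu⟩ := exists_max ![9 / 20, 1 / 100, 1 / 100]
    ⟨fun i => by fin_cases i <;> norm_num, fun s hs _ => union_bound s hs _
      (fun i => by fin_cases i <;> norm_num) (by simp; norm_num)⟩
  have v0 : 7 / 20 ≤ v 0 := hwv 0
  have v1 : 1 / 5 ≤ v 1 := hwv 1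
  have v2 : 1 / 5 ≤ v 2 := hwv 2
  have u0 : 9 / 20 ≤ u 0 := hwu 0
  have u1 : 2 * u 0 + u 1 ≤ 1 := by
    obtain ⟨t, ht⟩ := hu.1.2 ![1, 2, 3] (by decide) (by decide)
    exact pair_bound _ _ t (hu.1.1 1).1 (ht 0) (ht 1)
  have u2 : 2 * u 0 + u 2 ≤ 1 := by
    obtain ⟨t, ht⟩ := hu.1.2 ![1, 3, 2] (by decide) (by decide)
    exact pair_bound _ _ t (hu.1.1 2).1 (ht 0) (ht 2)
  have hU := avg_mem u hu (by linarith)
  have hV := avg_mem v hv (by linarith)
  set U := (u 0 + u 1 + u 2) / 3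
  set V := (v 0 + v 1 + v 2) / 3
  have hU' : U < 1 / 4 := by simp only [U]; linarith
  have hV' : 1 / 4 ≤ V := by simp only [V]; linarith
  have hd : 0 < V - U := by linarith
  have := (convex_convexHull ℝ (upperBoundary 3 \ {D 3})) hU hV
    (a := (V - 1 / 4) / (V - U)) (b := (1 / 4 - U) / (V - U))
    (div_nonneg (by linarith) hd.le) (div_nonneg (by linarith) hd.le)
    (by field_simp; ring)
  have e : D 3 = ((V - 1 / 4) / (V - U)) • (fun _ : Fin 3 => U) +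
      ((1 / 4 - U) / (V - U)) • (fun _ : Fin 3 => V) := by
    funext i
    simp only [D, Pi.add_apply, Pi.smul_apply, smul_eq_mul]
    field_simp
    ring
  rw [← e] at this
  exact this

end Pool.Agent.Results.MP_b0d7fb_nt.Three
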